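import Mathlib

/-!
Counting tuples whose span is stable under a linear map, over a finite field.
-/

namespace Pool.Agent.LibRigid

open Finset Module

section basic

variable {F : Type*} [Field F] {V : Type*} [AddCommGroup V] [Module F V] {k : ℕ}

/-- Joint linear independence of the vectors `x i, φ (x i)` for `i ∈ I`. -/
def Ind (φ : V →ₗ[F] V) (x : Fin k → V) (I : Finset (Fin k)) : Prop :=
  ∀ a b : Fin k → F, ∑ i ∈ I, (a i • x i + b i • φ (x i)) = 0 → ∀ i ∈ I, a i = 0 ∧ b i = 0

/-- Span of the vectors `x i, φ (x i)` for `i ∈ I`, as a set. -/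
def Wset (φ : V →ₗ[F] V) (x : Fin k → V) (I : Finset (Fin k)) : Set V :=
  {w | ∃ a b : Fin k → F, w = ∑ i ∈ I, (a i • x i + b i • φ (x i))}

/-- Vectors `y` such that `y, φ y` are dependent modulo `W`. -/
def Bad (φ : V →ₗ[F] V) (W : Set V) : Set V :=
  {y | ∃ α β : F, ¬ (α = 0 ∧ β = 0) ∧ α • y + β • φ y ∈ W}

lemma ind_empty (φ : V →ₗ[F] V) (x : Fin k → V) : Ind φ x ∅ := by
  intro a b _ i hi
  simp at hi

lemma Ind.subset {φ : V →ₗ[F] V} {x : Fin k → V} {I J : Finset (Fin k)} (h : Ind φ x I)
    (hJ : J ⊆ I) : Ind φ x J := by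
  classical
  intro a b hab i hi
  have := h (fun i => if i ∈ J then a i else 0) (fun i => if i ∈ J then b i else 0) ?_ i (hJ hi)
  · simpa [hi] using this
  · rw [← hab]
    rw [← Finset.sum_subset hJ]
    · apply Finset.sum_congr rfl
      intro i hi
      simp [hi]
    · intro i _ hi
      simp [hi]

lemma bad_of_not_ind {φ : V →ₗ[F] V} {x : Fin k → V} {I : Finset (Fin k)} {j : Fin k}
    (h : Ind φ x I) (hj : j ∉ I) (hn : ¬ Ind φ x (insert j I)) : x j ∈ Bad φ (Wset φ x I) := by
  classical
  unfold Ind at hn
  push Not at hn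
  obtain ⟨a, b, hab, i, hi, hne⟩ := hn
  rw [Finset.sum_insert hj] at hab
  refine ⟨a j, b j, ?_, ?_⟩
  · rintro ⟨h1, h2⟩
    rw [h1, h2] at hab
    simp only [zero_smul, add_zero, zero_add] at hab
    have := h a b hab
    rw [Finset.mem_insert] at hi
    rcases hi with rfl | hi
    · exact hne h1 h2
    · exact hne (this i hi).1 (this i hi).2
  · refine ⟨fun i => - a i, fun i => - b i, ?_⟩
    rw [eq_comm]
    have : ∑ i ∈ I, ((- a i) • x i + (- b i) • φ (x i)) = - ∑ i ∈ I, (a i • x i + b i • φ (x i)) := by
      rw [← Finset.sum_neg_distrib]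
      apply Finset.sum_congr rfl
      intro i _
      simp only [neg_smul]
      abel
    rw [this]
    rw [neg_eq_iff_add_eq_zero, add_comm]
    exact hab

lemma Wset_congr {φ : V →ₗ[F] V} {x y : Fin k → V} {I : Finset (Fin k)}
    (h : ∀ i ∈ I, x i = y i) : Wset φ x I = Wset φ y I := by
  ext w
  simp only [Wset, Set.mem_ofPred_eq]
  constructor
  · rintro ⟨a, b, rfl⟩
    refine ⟨a, b, ?_⟩
    apply Finset.sum_congr rfl
    intro i hi
    rw [h i hi]
  · rintro ⟨a, b, rfl⟩
    refine ⟨a, b, ?_⟩
    apply Finset.sum_congr rfl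
    intro i hi
    rw [h i hi]

end basic

section counting

variable {F : Type*} [Field F] [Fintype F] {V : Type*} [AddCommGroup V] [Module F V] [Fintype V]
  {k : ℕ}

lemma ncard_Wset (φ : V →ₗ[F] V) (x : Fin k → V) (I : Finset (Fin k)) :
    (Wset φ x I).ncard ≤ Fintype.card F ^ (2 * I.card) := by
  classical
  let f : (I → F) × (I → F) → V := fun p => ∑ i : I, (p.1 i • x i + p.2 i • φ (x i))
  have hsub : Wset φ x I ⊆ Set.range f := by
    rintro w ⟨a, b, rfl⟩
    refine ⟨(fun i => a i, fun i => b i), ?_⟩
    simp only [f]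
    exact Finset.sum_coe_sort I (fun i => a i • x i + b i • φ (x i))
  calc (Wset φ x I).ncard ≤ (Set.range f).ncard := Set.ncard_le_ncard hsub (Set.toFinite _)
    _ ≤ Nat.card ((I → F) × (I → F)) := by
        rw [← Set.image_univ, ← Set.ncard_univ]
        exact Set.ncard_image_le (Set.toFinite _)
    _ = Fintype.card F ^ (2 * I.card) := by
        rw [Nat.card_prod, Nat.card_fun]
        simp only [Nat.card_eq_fintype_card, Fintype.card_coe]
        ring

/-- The basic count for the good part. -/
lemma ncard_good (φ : V →ₗ[F] V) (I : Finset (Fin k)) :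
    {x : Fin k → V | Ind φ x I ∧ ∀ i ∈ I, φ (x i) ∈ Submodule.span F (Set.range x)}.ncard ≤
      Fintype.card F ^ (k * I.card) * Fintype.card V ^ (k - I.card) := by
  classical
  let E : (I → Fin k → F) → Set (Fin k → V) := fun c =>
    {x | Ind φ x I ∧ ∀ i : I, φ (x i) = ∑ j, c i j • x j}
  have hsub : {x : Fin k → V | Ind φ x I ∧ ∀ i ∈ I, φ (x i) ∈ Submodule.span F (Set.range x)} ⊆
      ⋃ c ∈ (Finset.univ : Finset (I → Fin k → F)), E c := by
    rintro x ⟨h1, h2⟩
    have h3 : ∀ i : I, ∃ c : Fin k → F, φ (x i) = ∑ j, c j • x j := by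
      intro i
      have := h2 i i.2
      rw [Submodule.mem_span_range_iff_exists_fun] at this
      obtain ⟨c, hc⟩ := this
      exact ⟨c, hc.symm⟩
    choose c hc using h3
    simp only [Finset.mem_univ, Set.iUnion_true, Set.mem_iUnion]
    exact ⟨c, h1, hc⟩
  have hE : ∀ c, (E c).ncard ≤ Fintype.card V ^ (k - I.card) := by
    intro c
    by_cases hne : (E c).Nonempty
    swap
    · rw [Set.not_nonempty_iff_eq_empty] at hne
      rw [hne]; simp
    obtain ⟨x0, hx0, hx0'⟩ := hne
    let T : (Fin k → V) →ₗ[F] (I → V) := LinearMap.pi fun i =>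
      φ.comp (LinearMap.proj (i : Fin k)) - ∑ j, c i j • LinearMap.proj j
    have hT : ∀ x i, T x i = φ (x i) - ∑ j, c i j • x j := by
      intro x i
      simp [T]
    have hsurj : LinearMap.range T = ⊤ := by
      by_contra hlt
      obtain ⟨f, hf0, hf⟩ := Submodule.exists_le_ker_of_lt_top _ (lt_top_iff_ne_top.mpr hlt)
      -- find a coordinate
      have : ∃ (i0 : I) (v0 : V), f (Pi.single i0 v0) ≠ 0 := by
        by_contra hall
        push Not at hall
        apply hf0
        ext i v
        simp [hall i v]
      obtain ⟨i0, v0, hiv⟩ := this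
      let a : Fin k → F := fun i => if h : i ∈ I then f (Pi.single ⟨i, h⟩ v0) else 0
      have ha : ∀ i : I, a i = f (Pi.single i v0) := by
        intro i
        simp [a]
      have hcol : ∀ j, j ∉ I → ∑ i : I, f (Pi.single i v0) * c i j = 0 := by
        intro j hj
        have h1 : f (T (Pi.single j v0)) = 0 := by
          have := hf (LinearMap.mem_range_self T (Pi.single j v0))
          simpa using this
        have h2 : T (Pi.single j v0) = ∑ i : I, (- c i j) • Pi.single i v0 := by
          ext i
          rw [hT]
          have hij : (i : Fin k) ≠ j := fun h => hj (h ▸ i.2)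
          rw [Pi.single_eq_of_ne hij, map_zero, Finset.sum_apply]
          rw [Finset.sum_eq_single j, Finset.sum_eq_single i]
          · simp
          · intro i' _ hi'
            simp [Pi.single_eq_of_ne (Ne.symm hi')]
          · simp
          · intro j' _ hj'
            simp [Pi.single_eq_of_ne hj']
          · simp
        rw [h2, map_sum] at h1
        have h3 : ∑ i : I, f ((- c i j) • Pi.single i v0) = - ∑ i : I, f (Pi.single i v0) * c i j := by
          rw [← Finset.sum_neg_distrib]
          apply Finset.sum_congr rfl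
          intro i _
          rw [map_smul, smul_eq_mul]
          ring
        rw [h3] at h1
        exact neg_eq_zero.mp h1
      -- the dependency
      have hdep : ∑ i ∈ I, ((- ∑ i' : I, a i' * c i' i) • x0 i + a i • φ (x0 i)) = 0 := by
        have e1 : ∑ i ∈ I, a i • φ (x0 i) = ∑ j, (∑ i : I, a i * c i j) • x0 j := by
          rw [← Finset.sum_coe_sort I (fun i => a i • φ (x0 i))]
          calc ∑ i : I, a i • φ (x0 i) = ∑ i : I, ∑ j, (a i * c i j) • x0 j := by
                apply Finset.sum_congr rfl
                intro i _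
                rw [hx0' i, Finset.smul_sum]
                apply Finset.sum_congr rfl
                intro j _
                rw [smul_smul]
            _ = ∑ j, (∑ i : I, a i * c i j) • x0 j := by
                rw [Finset.sum_comm]
                apply Finset.sum_congr rfl
                intro j _
                rw [Finset.sum_smul]
        have e2 : ∑ j, (∑ i : I, a i * c i j) • x0 j = ∑ j ∈ I, (∑ i : I, a i * c i j) • x0 j := by
          rw [eq_comm]
          apply Finset.sum_subset (Finset.subset_univ I)
          intro j _ hj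
          have : ∑ i : I, a i * c i j = 0 := by
            rw [← hcol j hj]
            apply Finset.sum_congr rfl
            intro i _
            rw [ha]
          rw [this, zero_smul]
        rw [Finset.sum_add_distrib, e1, e2, ← Finset.sum_add_distrib]
        apply Finset.sum_eq_zero
        intro i _
        rw [neg_smul]
        abel
      have := (hx0 _ _ hdep i0 i0.2).2
      rw [ha] at this
      exact hiv this
    have hEk : E c ⊆ (LinearMap.ker T : Set (Fin k → V)) := by
      rintro x ⟨-, hx⟩
      simp only [SetLike.mem_coe, LinearMap.mem_ker]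
      ext i
      rw [hT, hx i]
      simp
    have hle : (E c).ncard ≤ (LinearMap.ker T : Set (Fin k → V)).ncard :=
      Set.ncard_le_ncard hEk (Set.toFinite _)
    have hmul : Nat.card (Fin k → V) = Nat.card (I → V) * Nat.card (LinearMap.ker T) := by
      have h1 := AddSubgroup.card_eq_card_quotient_mul_card_addSubgroup
        (LinearMap.ker T).toAddSubgroup
      have h2 : Nat.card ((Fin k → V) ⧸ (LinearMap.ker T).toAddSubgroup) = Nat.card (I → V) := by
        have e : ((Fin k → V) ⧸ LinearMap.ker T) ≃ₗ[F] (I → V) :=
          LinearMap.quotKerEquivOfSurjective T (LinearMap.range_eq_top.mp hsurj)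
        exact Nat.card_congr e.toEquiv
      rw [h2] at h1
      exact h1
    have hI : I.card ≤ k := by simpa using Finset.card_le_univ I
    have hVpos : 0 < Fintype.card V := Fintype.card_pos
    have hker : Nat.card (LinearMap.ker T) = Fintype.card V ^ (k - I.card) := by
      rw [Nat.card_fun, Nat.card_fun] at hmul
      simp only [Nat.card_eq_fintype_card, Fintype.card_fin, Fintype.card_coe] at hmul
      have h3 : Fintype.card V ^ k = Fintype.card V ^ I.card * Fintype.card V ^ (k - I.card) := by
        rw [← pow_add]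
        congr 1
        omega
      rw [h3] at hmul
      rw [Nat.card_eq_fintype_card]
      exact (Nat.eq_of_mul_eq_mul_left (by positivity) hmul).symm
    calc (E c).ncard ≤ (LinearMap.ker T : Set (Fin k → V)).ncard := hle
      _ = Nat.card (LinearMap.ker T) := rfl
      _ = _ := hker
  calc {x : Fin k → V | Ind φ x I ∧ ∀ i ∈ I, φ (x i) ∈ Submodule.span F (Set.range x)}.ncard
      ≤ (⋃ c ∈ (Finset.univ : Finset (I → Fin k → F)), E c).ncard :=
        Set.ncard_le_ncard hsub (Set.toFinite _)
    _ ≤ ∑ c ∈ (Finset.univ : Finset (I → Fin k → F)), (E c).ncard := by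
        exact Finset.set_ncard_biUnion_le _ _
    _ ≤ ∑ c ∈ (Finset.univ : Finset (I → Fin k → F)), Fintype.card V ^ (k - I.card) :=
        Finset.sum_le_sum fun c _ => hE c
    _ = Fintype.card F ^ (k * I.card) * Fintype.card V ^ (k - I.card) := by
        rw [Finset.sum_const, smul_eq_mul, Finset.card_univ, Fintype.card_fun, Fintype.card_fun,
          Fintype.card_fin, Fintype.card_coe, ← pow_mul]

end counting

end Pool.Agent.LibRigid
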