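import Mathlib
import Pool.Agent.LibRigid.Count

/-!
The greedy decomposition and the resulting bounds.
-/

namespace Pool.Agent.LibRigid

open Finset Module

section counting

variable {F : Type*} [Field F] [Fintype F] {V : Type*} [AddCommGroup V] [Module F V] [Fintype V]
  {k : ℕ}

/-- `κ` bounds the fibres of the pencil `α + β φ`. -/
def FibreBound (φ : V →ₗ[F] V) (κ : ℕ) : Prop :=
  ∀ α β : F, ¬ (α = 0 ∧ β = 0) → ∀ w : V, {y : V | α • y + β • φ y = w}.ncard ≤ κ

lemma ncard_Bad {φ : V →ₗ[F] V} {κ : ℕ} (h : FibreBound φ κ) (W : Set V) :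
    (Bad φ W).ncard ≤ Fintype.card F ^ 2 * (W.ncard * κ) := by
  classical
  have hsub : Bad φ W ⊆ ⋃ p ∈ (Finset.univ.filter fun p : F × F => ¬ (p.1 = 0 ∧ p.2 = 0)),
      ⋃ w ∈ W.toFinset, {y : V | p.1 • y + p.2 • φ y = w} := by
    rintro y ⟨α, β, hαβ, hy⟩
    simp only [Finset.mem_filter, Finset.mem_univ, true_and, Set.mem_iUnion, Set.mem_toFinset,
      Set.mem_ofPred_eq]
    exact ⟨(α, β), hαβ, _, hy, rfl⟩
  calc (Bad φ W).ncard ≤ _ := Set.ncard_le_ncard hsub (Set.toFinite _)
    _ ≤ ∑ p ∈ (Finset.univ.filter fun p : F × F => ¬ (p.1 = 0 ∧ p.2 = 0)),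
        (⋃ w ∈ W.toFinset, {y : V | p.1 • y + p.2 • φ y = w}).ncard :=
        Finset.set_ncard_biUnion_le _ _
    _ ≤ ∑ p ∈ (Finset.univ.filter fun p : F × F => ¬ (p.1 = 0 ∧ p.2 = 0)), (W.ncard * κ) := by
        apply Finset.sum_le_sum
        intro p hp
        simp only [Finset.mem_filter, Finset.mem_univ, true_and] at hp
        calc (⋃ w ∈ W.toFinset, {y : V | p.1 • y + p.2 • φ y = w}).ncard
            ≤ ∑ w ∈ W.toFinset, {y : V | p.1 • y + p.2 • φ y = w}.ncard :=
              Finset.set_ncard_biUnion_le _ _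
          _ ≤ ∑ w ∈ W.toFinset, κ := Finset.sum_le_sum fun w _ => h _ _ hp w
          _ = W.ncard * κ := by
              rw [Finset.sum_const, smul_eq_mul, Set.ncard_eq_toFinset_card']
    _ ≤ Fintype.card F ^ 2 * (W.ncard * κ) := by
        rw [Finset.sum_const, smul_eq_mul]
        apply Nat.mul_le_mul_right
        calc _ ≤ (Finset.univ : Finset (F × F)).card := Finset.card_filter_le _ _
          _ = Fintype.card F ^ 2 := by rw [Finset.card_univ, Fintype.card_prod, sq]

omit [Fintype F] in
lemma ncard_fixedI (φ : V →ₗ[F] V) (I : Finset (Fin k)) (M : ℕ)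
    (hM : ∀ x : Fin k → V, (Bad φ (Wset φ x I)).ncard ≤ M) :
    {x : Fin k → V | ∀ j, j ∉ I → x j ∈ Bad φ (Wset φ x I)}.ncard ≤
      Fintype.card V ^ I.card * M ^ (k - I.card) := by
  classical
  let ext : (I → V) → (Fin k → V) := fun y i => if h : i ∈ I then y ⟨i, h⟩ else 0
  let A : (I → V) → Fin k → Finset V := fun y i =>
    if i ∈ I then {ext y i} else (Bad φ (Wset φ (ext y) I)).toFinset
  have hsub : {x : Fin k → V | ∀ j, j ∉ I → x j ∈ Bad φ (Wset φ x I)} ⊆
      ⋃ y ∈ (Finset.univ : Finset (I → V)), ((Fintype.piFinset (A y) : Finset (Fin k → V)) :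
        Set (Fin k → V)) := by
    intro x hx
    simp only [Set.mem_ofPred_eq] at hx
    simp only [Finset.mem_univ, Set.iUnion_true, Set.mem_iUnion, Finset.mem_coe,
      Fintype.mem_piFinset]
    refine ⟨fun i => x i, ?_⟩
    have hext : ∀ i ∈ I, ext (fun i => x i) i = x i := by
      intro i hi
      simp [ext, hi]
    intro i
    by_cases hi : i ∈ I
    · simp only [A, hi, if_true, Finset.mem_singleton]
      exact (hext i hi).symm
    · simp only [A, hi, if_false, Set.mem_toFinset]
      rw [Wset_congr hext]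
      exact hx i hi
  have hcard : ∀ y, (Fintype.piFinset (A y)).card ≤ M ^ (k - I.card) := by
    intro y
    rw [Fintype.card_piFinset]
    have h1 : ∀ i : Fin k, (A y i).card ≤ if i ∈ I then 1 else M := by
      intro i
      by_cases hi : i ∈ I
      · simp [A, hi]
      · simp only [A, hi, if_false]
        rw [← Set.ncard_eq_toFinset_card']
        exact hM _
    calc ∏ i, (A y i).card ≤ ∏ i : Fin k, (if i ∈ I then 1 else M) :=
          Finset.prod_le_prod' fun i _ => h1 i
      _ = M ^ (k - I.card) := by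
          rw [Finset.prod_ite]
          simp only [Finset.prod_const_one, one_mul, Finset.prod_const]
          congr 1
          have : (Finset.univ.filter fun i : Fin k => ¬ i ∈ I) = Iᶜ := by
            ext i; simp
          rw [this, Finset.card_compl, Fintype.card_fin]
  calc _ ≤ _ := Set.ncard_le_ncard hsub (Set.toFinite _)
    _ ≤ ∑ y ∈ (Finset.univ : Finset (I → V)), ((Fintype.piFinset (A y) : Finset (Fin k → V)) :
        Set (Fin k → V)).ncard := Finset.set_ncard_biUnion_le _ _
    _ ≤ ∑ y ∈ (Finset.univ : Finset (I → V)), M ^ (k - I.card) := by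
        apply Finset.sum_le_sum
        intro y _
        rw [Set.ncard_coe_finset]
        exact hcard y
    _ = _ := by
        rw [Finset.sum_const, smul_eq_mul, Finset.card_univ, Fintype.card_fun, Fintype.card_coe]

omit [Fintype F] [Fintype V] in
/-- Either a good set of size `g` exists, or a maximal good set is smaller. -/
lemma good_or_small (φ : V →ₗ[F] V) (g : ℕ) (x : Fin k → V) :
    (∃ I : Finset (Fin k), I.card = g ∧ Ind φ x I) ∨
    (∃ I : Finset (Fin k), I.card < g ∧ ∀ j, j ∉ I → x j ∈ Bad φ (Wset φ x I)) := by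
  classical
  let S : Finset (Finset (Fin k)) := Finset.univ.filter fun I => Ind φ x I
  have hS : S.Nonempty := ⟨∅, by simp only [S, Finset.mem_filter, Finset.mem_univ, true_and]; exact ind_empty φ x⟩
  obtain ⟨I, hI, hmax⟩ := Finset.exists_max_image S Finset.card hS
  simp only [S, Finset.mem_filter, Finset.mem_univ, true_and] at hI hmax
  by_cases hg : g ≤ I.card
  · left
    obtain ⟨J, hJ, hJc⟩ := Finset.exists_subset_card_eq hg
    exact ⟨J, hJc, hI.subset hJ⟩
  · right
    refine ⟨I, by omega, ?_⟩
    intro j hj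
    apply bad_of_not_ind hI hj
    intro hn
    have := hmax _ hn
    rw [Finset.card_insert_of_notMem hj] at this
    omega

/-- Main count: tuples whose span is stable under `φ`. -/
lemma ncard_stable {φ : V →ₗ[F] V} {κ : ℕ} (h : FibreBound φ κ) (g : ℕ) :
    {x : Fin k → V | ∀ i, φ (x i) ∈ Submodule.span F (Set.range x)}.ncard ≤
      k.choose g * (Fintype.card F ^ (k * g) * Fintype.card V ^ (k - g)) +
      ∑ j ∈ Finset.range g, k.choose j * (Fintype.card V ^ j *
        (Fintype.card F ^ 2 * (Fintype.card F ^ (2 * j) * κ)) ^ (k - j)) := by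
  classical
  have hsub : {x : Fin k → V | ∀ i, φ (x i) ∈ Submodule.span F (Set.range x)} ⊆
      (⋃ I ∈ (Finset.univ : Finset (Fin k)).powersetCard g,
        {x : Fin k → V | Ind φ x I ∧ ∀ i ∈ I, φ (x i) ∈ Submodule.span F (Set.range x)}) ∪
      (⋃ j ∈ Finset.range g, ⋃ I ∈ (Finset.univ : Finset (Fin k)).powersetCard j,
        {x : Fin k → V | ∀ j, j ∉ I → x j ∈ Bad φ (Wset φ x I)}) := by
    intro x hx
    simp only [Set.mem_ofPred_eq] at hx
    rcases good_or_small φ g x with ⟨I, hI, hind⟩ | ⟨I, hI, hbad⟩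
    · left
      simp only [Set.mem_iUnion, Set.mem_ofPred_eq, Finset.mem_powersetCard]
      exact ⟨I, ⟨Finset.subset_univ _, hI⟩, hind, fun i _ => hx i⟩
    · right
      simp only [Set.mem_iUnion, Set.mem_ofPred_eq, Finset.mem_powersetCard, Finset.mem_range]
      exact ⟨I.card, hI, I, ⟨Finset.subset_univ _, rfl⟩, hbad⟩
  refine (Set.ncard_le_ncard hsub (Set.toFinite _)).trans ?_
  refine (Set.ncard_union_le _ _).trans ?_
  apply Nat.add_le_add
  · refine (Finset.set_ncard_biUnion_le _ _).trans ?_
    calc _ ≤ ∑ I ∈ (Finset.univ : Finset (Fin k)).powersetCard g,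
          Fintype.card F ^ (k * g) * Fintype.card V ^ (k - g) := by
          apply Finset.sum_le_sum
          intro I hI
          rw [Finset.mem_powersetCard] at hI
          have := ncard_good φ I
          rw [hI.2] at this
          exact this
      _ = _ := by
          rw [Finset.sum_const, smul_eq_mul, Finset.card_powersetCard, Finset.card_univ,
            Fintype.card_fin]
  · refine (Finset.set_ncard_biUnion_le _ _).trans ?_
    apply Finset.sum_le_sum
    intro j _
    refine (Finset.set_ncard_biUnion_le _ _).trans ?_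
    calc _ ≤ ∑ I ∈ (Finset.univ : Finset (Fin k)).powersetCard j,
          (Fintype.card V ^ j *
        (Fintype.card F ^ 2 * (Fintype.card F ^ (2 * j) * κ)) ^ (k - j)) := by
          apply Finset.sum_le_sum
          intro I hI
          rw [Finset.mem_powersetCard] at hI
          have := ncard_fixedI φ I (Fintype.card F ^ 2 * (Fintype.card F ^ (2 * j) * κ)) ?_
          · rw [hI.2] at this
            exact this
          · intro x
            refine (ncard_Bad h _).trans ?_
            apply Nat.mul_le_mul_left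
            apply Nat.mul_le_mul_right
            have := ncard_Wset φ x I
            rw [hI.2] at this
            exact this
      _ = _ := by
          rw [Finset.sum_const, smul_eq_mul, Finset.card_powersetCard, Finset.card_univ,
            Fintype.card_fin]

/-! ### Eigenvectors of a non-scalar map -/

/-- If `y₀` is not an eigenvector, then at most `2/q` of all vectors are eigenvectors. -/
lemma ncard_Bad_zero {φ : V →ₗ[F] V} {y₀ : V} (hy : y₀ ∉ Bad φ {0}) :
    Fintype.card F * (Bad φ {0}).ncard ≤ 2 * Fintype.card V := by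
  classical
  have hmem : ∀ y, y ∈ Bad φ {0} ↔ ∃ α β : F, ¬ (α = 0 ∧ β = 0) ∧ α • y + β • φ y = 0 := by
    intro y; rfl
  have hsmul : ∀ (c : F) (y : V), c ≠ 0 → c • y ∈ Bad φ {0} → y ∈ Bad φ {0} := by
    intro c y hc hcy
    rw [hmem] at hcy ⊢
    obtain ⟨α, β, h, he⟩ := hcy
    refine ⟨α, β, h, ?_⟩
    have : c • (α • y + β • φ y) = 0 := by
      rw [← he, map_smul]
      module
    exact (smul_eq_zero.mp this).resolve_left hc
  have heig : ∀ y, y ∈ Bad φ {0} → y = 0 ∨ ∃ μ : F, φ y = μ • y := by
    intro y hy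
    rw [hmem] at hy
    obtain ⟨α, β, h, he⟩ := hy
    by_cases hβ : β = 0
    · left
      rw [hβ, zero_smul, add_zero] at he
      exact (smul_eq_zero.mp he).resolve_left fun hα => h ⟨hα, hβ⟩
    · right
      refine ⟨- (β⁻¹ * α), ?_⟩
      have : β⁻¹ • (α • y + β • φ y) = 0 := by rw [he, smul_zero]
      rw [smul_add, smul_smul, smul_smul, inv_mul_cancel₀ hβ, one_smul] at this
      rw [neg_smul]
      exact (neg_eq_of_add_eq_zero_right this).symm
  have hzero : ∀ y, y ∈ Bad φ {0} → ∀ μ : F, φ y₀ ≠ μ • y₀ := by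
    intro y _ μ hμ
    apply hy
    rw [hmem]
    refine ⟨- μ, 1, by simp, ?_⟩
    rw [hμ]; module
  have hne : ∀ μ : F, φ y₀ ≠ μ • y₀ := by
    intro μ hμ
    apply hy
    rw [hmem]
    refine ⟨- μ, 1, by simp, ?_⟩
    rw [hμ]; module
  -- three points on a line
  have three : ∀ (x : V) (a b : F), a ≠ 0 → b ≠ 0 → a ≠ b → x ∈ Bad φ {0} →
      x + a • y₀ ∈ Bad φ {0} → x + b • y₀ ∈ Bad φ {0} → False := by
    intro x a b ha hb hab hx hxa hxb
    have hx0 : x ≠ 0 := by
      rintro rfl
      rw [zero_add] at hxa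
      exact hy (hsmul a y₀ ha hxa)
    have hnpar : ∀ c : F, y₀ ≠ c • x := by
      intro c hc
      obtain h1 | ⟨μ, hμ⟩ := heig x hx
      · exact hx0 h1
      · apply hne μ
        rw [hc, map_smul, hμ]; module
    obtain h0 | ⟨μ0, hμ0⟩ := heig x hx
    · exact hx0 h0
    obtain h1 | ⟨μ1, hμ1⟩ := heig _ hxa
    · apply hnpar (- a⁻¹)
      have : a⁻¹ • (x + a • y₀) = 0 := by rw [h1, smul_zero]
      rw [smul_add, smul_smul, inv_mul_cancel₀ ha, one_smul] at this
      rw [neg_smul]
      exact (neg_eq_of_add_eq_zero_right this).symm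
    obtain h2 | ⟨μ2, hμ2⟩ := heig _ hxb
    · apply hnpar (- b⁻¹)
      have : b⁻¹ • (x + b • y₀) = 0 := by rw [h2, smul_zero]
      rw [smul_add, smul_smul, inv_mul_cancel₀ hb, one_smul] at this
      rw [neg_smul]
      exact (neg_eq_of_add_eq_zero_right this).symm
    rw [map_add, map_smul, hμ0] at hμ1 hμ2
    -- a φ y₀ = (μ1 - μ0) x + μ1 a y₀ ; b φ y₀ = (μ2 - μ0) x + μ2 b y₀
    have e1 : a • φ y₀ = (μ1 - μ0) • x + (μ1 * a) • y₀ := by
      have : a • φ y₀ = μ1 • (x + a • y₀) - μ0 • x := by rw [← hμ1]; abel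
      rw [this]; module
    have e2 : b • φ y₀ = (μ2 - μ0) • x + (μ2 * b) • y₀ := by
      have : b • φ y₀ = μ2 • (x + b • y₀) - μ0 • x := by rw [← hμ2]; abel
      rw [this]; module
    have e3 : (b * (μ1 - μ0) - a * (μ2 - μ0)) • x = (a * b * (μ2 - μ1)) • y₀ := by
      have h3 : b • (a • φ y₀) = a • (b • φ y₀) := by module
      rw [e1, e2] at h3
      have h4 : b • ((μ1 - μ0) • x + (μ1 * a) • y₀) - a • ((μ2 - μ0) • x + (μ2 * b) • y₀) = 0 := by
        rw [h3, sub_self]
      have h5 : b • ((μ1 - μ0) • x + (μ1 * a) • y₀) - a • ((μ2 - μ0) • x + (μ2 * b) • y₀) =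
          (b * (μ1 - μ0) - a * (μ2 - μ0)) • x - (a * b * (μ2 - μ1)) • y₀ := by module
      rw [h5] at h4
      exact sub_eq_zero.mp h4
    by_cases h12 : μ2 = μ1
    · rw [h12, sub_self, mul_zero, zero_smul] at e3
      have h6 := (smul_eq_zero.mp e3).resolve_right hx0
      have h7 : (b - a) * (μ1 - μ0) = 0 := by linear_combination h6
      have h8 : μ1 - μ0 = 0 := (mul_eq_zero.mp h7).resolve_left (sub_ne_zero.mpr (Ne.symm hab))
      rw [h8, zero_smul, zero_add, mul_comm, mul_smul] at e1
      exact hne μ1 (smul_right_injective V ha e1)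
    · have hc : a * b * (μ2 - μ1) ≠ 0 := mul_ne_zero (mul_ne_zero ha hb) (sub_ne_zero.mpr h12)
      apply hnpar ((a * b * (μ2 - μ1))⁻¹ * (b * (μ1 - μ0) - a * (μ2 - μ0)))
      rw [mul_smul, e3, smul_smul, inv_mul_cancel₀ hc, one_smul]
  -- each line has at most two bad points
  have hline : ∀ x : V, (Finset.univ.filter fun c : F => x + c • y₀ ∈ Bad φ {0}).card ≤ 2 := by
    intro x
    by_contra hgt
    push Not at hgt
    obtain ⟨c0, c1, c2, h0, h1, h2, h01, h02, h12⟩ := Finset.two_lt_card_iff.mp hgt
    simp only [Finset.mem_filter, Finset.mem_univ, true_and] at h0 h1 h2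
    apply three (x + c0 • y₀) (c1 - c0) (c2 - c0) (sub_ne_zero.mpr h01.symm)
      (sub_ne_zero.mpr h02.symm) (fun h => h12 (sub_left_injective h)) h0
    · convert h1 using 1; module
    · convert h2 using 1; module
  -- double counting
  have hdc : ∑ x : V, (Finset.univ.filter fun c : F => x + c • y₀ ∈ Bad φ {0}).card =
      ∑ c : F, (Finset.univ.filter fun x : V => x + c • y₀ ∈ Bad φ {0}).card := by
    simp only [Finset.card_filter]
    exact Finset.sum_comm
  have hshift : ∀ c : F, (Finset.univ.filter fun x : V => x + c • y₀ ∈ Bad φ {0}).card =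
      (Bad φ {0}).ncard := by
    intro c
    rw [Set.ncard_eq_toFinset_card']
    apply Finset.card_bij (fun x _ => x + c • y₀)
    · intro x hx
      simpa using hx
    · intro x _ y _ hxy
      exact add_right_cancel hxy
    · intro y hy'
      refine ⟨y - c • y₀, ?_, by simp⟩
      simpa using hy'
  calc Fintype.card F * (Bad φ {0}).ncard = ∑ c : F, (Bad φ {0}).ncard := by
        rw [Finset.sum_const, smul_eq_mul, Finset.card_univ]
    _ = ∑ c : F, (Finset.univ.filter fun x : V => x + c • y₀ ∈ Bad φ {0}).card := by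
        apply Finset.sum_congr rfl
        intro c _
        rw [hshift]
    _ = ∑ x : V, (Finset.univ.filter fun c : F => x + c • y₀ ∈ Bad φ {0}).card := hdc.symm
    _ ≤ ∑ x : V, 2 := Finset.sum_le_sum fun x _ => hline x
    _ = 2 * Fintype.card V := by
        rw [Finset.sum_const, smul_eq_mul, Finset.card_univ, mul_comm]

/-- Count with a single good vector. -/
lemma ncard_stable_one (φ : V →ₗ[F] V) :
    {x : Fin k → V | ∀ i, φ (x i) ∈ Submodule.span F (Set.range x)}.ncard ≤
      k * (Fintype.card F ^ k * Fintype.card V ^ (k - 1)) + (Bad φ {0}).ncard ^ k := by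
  classical
  have hsub : {x : Fin k → V | ∀ i, φ (x i) ∈ Submodule.span F (Set.range x)} ⊆
      (⋃ I ∈ (Finset.univ : Finset (Fin k)).powersetCard 1,
        {x : Fin k → V | Ind φ x I ∧ ∀ i ∈ I, φ (x i) ∈ Submodule.span F (Set.range x)}) ∪
      ((Fintype.piFinset fun _ : Fin k => (Bad φ {0}).toFinset : Finset (Fin k → V)) :
        Set (Fin k → V)) := by
    intro x hx
    simp only [Set.mem_ofPred_eq] at hx
    rcases good_or_small φ 1 x with ⟨I, hI, hind⟩ | ⟨I, hI, hbad⟩
    · left
      simp only [Set.mem_iUnion, Set.mem_ofPred_eq, Finset.mem_powersetCard]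
      exact ⟨I, ⟨Finset.subset_univ _, hI⟩, hind, fun i _ => hx i⟩
    · right
      have hI0 : I = ∅ := by
        rw [← Finset.card_eq_zero]; omega
      subst hI0
      have hW : Wset φ x ∅ = {0} := by
        ext w
        simp [Wset]
      rw [hW] at hbad
      simp only [Finset.mem_coe, Fintype.mem_piFinset, Set.mem_toFinset]
      intro i
      exact hbad i (Finset.notMem_empty i)
  refine (Set.ncard_le_ncard hsub (Set.toFinite _)).trans ?_
  refine (Set.ncard_union_le _ _).trans ?_
  apply Nat.add_le_add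
  · refine (Finset.set_ncard_biUnion_le _ _).trans ?_
    calc _ ≤ ∑ I ∈ (Finset.univ : Finset (Fin k)).powersetCard 1,
          Fintype.card F ^ k * Fintype.card V ^ (k - 1) := by
          apply Finset.sum_le_sum
          intro I hI
          rw [Finset.mem_powersetCard] at hI
          have := ncard_good φ I
          rw [hI.2, mul_one] at this
          exact this
      _ = _ := by
          rw [Finset.sum_const, smul_eq_mul, Finset.card_powersetCard, Finset.card_univ,
            Fintype.card_fin, Nat.choose_one_right]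
  · rw [Set.ncard_coe_finset, Fintype.card_piFinset, Finset.prod_const, Finset.card_univ,
      Fintype.card_fin, Set.ncard_eq_toFinset_card']

end counting

end Pool.Agent.LibRigid
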