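import Mathlib
import Pool.Agent.LibRigid.Greedy

/-!
Monomial maps.
-/

namespace Pool.Agent.LibRigid

open Finset Module

section monomial

variable {F : Type*} [Field F] {n : ℕ}

/-- The monomial map of `(d, σ)`: `x ↦ (d i * x (σ⁻¹ i))_i`. -/
def monomialMap (d : Fin n → Fˣ) (σ : Equiv.Perm (Fin n)) : (Fin n → F) →ₗ[F] (Fin n → F) where
  toFun x := fun i => (d i : F) * x (σ⁻¹ i)
  map_add' x y := by
    funext i
    simp only [Pi.add_apply, mul_add]
  map_smul' c x := by
    funext i
    simp only [Pi.smul_apply, smul_eq_mul, RingHom.id_apply]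
    ring

lemma monomialMap_apply (d : Fin n → Fˣ) (σ : Equiv.Perm (Fin n)) (x : Fin n → F) (i : Fin n) :
    monomialMap d σ x i = (d i : F) * x (σ⁻¹ i) := rfl

open Classical in
/-- Coordinates on which `(d, σ)` differs from the scalar `μ`. -/
noncomputable def usupp (μ : F) (d : Fin n → Fˣ) (σ : Equiv.Perm (Fin n)) : Finset (Fin n) :=
  Finset.univ.filter fun i => ¬ (σ i = i ∧ (d i : F) = μ)

lemma mem_usupp {μ : F} {d : Fin n → Fˣ} {σ : Equiv.Perm (Fin n)} {i : Fin n} :
    i ∈ usupp μ d σ ↔ ¬ (σ i = i ∧ (d i : F) = μ) := by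
  simp [usupp]

lemma perm_inv_self (σ : Equiv.Perm (Fin n)) (i : Fin n) : σ⁻¹ (σ i) = i := σ.symm_apply_apply i

lemma exists_T (σ : Equiv.Perm (Fin n)) :
    ∃ T : Finset (Fin n), (∀ t ∈ T, σ t ∉ T) ∧
      (Finset.univ.filter fun i => σ i ≠ i).card ≤ 3 * T.card := by
  classical
  let S : Finset (Finset (Fin n)) := Finset.univ.filter fun T => ∀ t ∈ T, σ t ∉ T
  have hS : S.Nonempty := ⟨∅, by simp [S]⟩
  obtain ⟨T, hT, hmax⟩ := Finset.exists_max_image S Finset.card hS
  simp only [S, Finset.mem_filter, Finset.mem_univ, true_and] at hT hmax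
  refine ⟨T, hT, ?_⟩
  have hsub : (Finset.univ.filter fun i => σ i ≠ i) ⊆ T ∪ (T.image σ ∪ T.image σ.symm) := by
    intro i hi
    simp only [Finset.mem_filter, Finset.mem_univ, true_and] at hi
    simp only [Finset.mem_union, Finset.mem_image]
    by_cases hiT : i ∈ T
    · left; exact hiT
    right
    by_contra hno
    push Not at hno
    have hins : ∀ t ∈ insert i T, σ t ∉ insert i T := by
      intro t ht
      rw [Finset.mem_insert] at ht
      rw [Finset.mem_insert, not_or]
      rcases ht with rfl | ht
      · refine ⟨hi, ?_⟩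
        intro h
        exact hno.2 _ h (by simp)
      · exact ⟨hno.1 t ht, hT t ht⟩
    have := hmax _ hins
    rw [Finset.card_insert_of_notMem hiT] at this
    omega
  calc _ ≤ (T ∪ (T.image σ ∪ T.image σ.symm)).card := Finset.card_le_card hsub
    _ ≤ T.card + ((T.image σ).card + (T.image σ.symm).card) :=
        (Finset.card_union_le _ _).trans (Nat.add_le_add_left (Finset.card_union_le _ _) _)
    _ ≤ T.card + (T.card + T.card) := by
        exact Nat.add_le_add_left (Nat.add_le_add Finset.card_image_le Finset.card_image_le) _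
    _ = 3 * T.card := by ring

/-- A large set of coordinates that an eigenvector is determined off. -/
lemma exists_R (d : Fin n → Fˣ) (σ : Equiv.Perm (Fin n)) (μ : F) :
    ∃ R : Finset (Fin n), (usupp μ d σ).card ≤ 3 * R.card ∧
      ∀ z : Fin n → F, (∀ i, i ∉ R → z i = 0) → monomialMap d σ z = μ • z → z = 0 := by
  classical
  obtain ⟨T, hT, hTc⟩ := exists_T σ
  let P : Finset (Fin n) := Finset.univ.filter fun i => σ i = i ∧ (d i : F) ≠ μ
  have hTN : ∀ t ∈ T, σ t ≠ t := fun t ht h => hT t ht (h.symm ▸ ht)
  have hdisj : Disjoint P (T.image σ) := by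
    rw [Finset.disjoint_left]
    intro i hi hi'
    simp only [P, Finset.mem_filter, Finset.mem_univ, true_and] at hi
    rw [Finset.mem_image] at hi'
    obtain ⟨t, ht, rfl⟩ := hi'
    exact hTN t ht (σ.injective hi.1)
  refine ⟨P ∪ T.image σ, ?_, ?_⟩
  · have h1 : usupp μ d σ ⊆ P ∪ Finset.univ.filter fun i => σ i ≠ i := by
      intro i hi
      rw [mem_usupp] at hi
      simp only [P, Finset.mem_union, Finset.mem_filter, Finset.mem_univ, true_and]
      by_cases h : σ i = i
      · left; exact ⟨h, fun h' => hi ⟨h, h'⟩⟩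
      · right; exact h
    have h2 : (P ∪ T.image σ).card = P.card + T.card := by
      rw [Finset.card_union_of_disjoint hdisj, Finset.card_image_of_injective _ σ.injective]
    have h3 := Finset.card_le_card h1
    have h4 := Finset.card_union_le P (Finset.univ.filter fun i => σ i ≠ i)
    omega
  · intro z hz hφ
    have hi : ∀ i, (d i : F) * z (σ⁻¹ i) = μ * z i := by
      intro i
      have := congrFun hφ i
      rwa [monomialMap_apply, Pi.smul_apply, smul_eq_mul] at this
    by_cases hμ : μ = 0
    · funext j
      have := hi (σ j)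
      rw [hμ, zero_mul, perm_inv_self] at this
      exact (mul_eq_zero.mp this).resolve_left (d (σ j)).ne_zero
    · funext i
      by_cases hiR : i ∈ P ∪ T.image σ
      · rw [Finset.mem_union] at hiR
        rcases hiR with hP | hT'
        · simp only [P, Finset.mem_filter, Finset.mem_univ, true_and] at hP
          have h1 := hi i
          have h2 : σ⁻¹ i = i := by
            rw [Equiv.Perm.inv_eq_iff_eq]; exact hP.1.symm
          rw [h2] at h1
          have h3 : ((d i : F) - μ) * z i = 0 := by rw [sub_mul, h1, sub_self]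
          exact (mul_eq_zero.mp h3).resolve_left (sub_ne_zero.mpr hP.2)
        · rw [Finset.mem_image] at hT'
          obtain ⟨t, ht, rfl⟩ := hT'
          have h1 := hi (σ t)
          rw [perm_inv_self] at h1
          have h2 : t ∉ P ∪ T.image σ := by
            rw [Finset.mem_union, not_or]
            constructor
            · intro h
              simp only [P, Finset.mem_filter, Finset.mem_univ, true_and] at h
              exact hTN t ht h.1
            · intro h
              rw [Finset.mem_image] at h
              obtain ⟨t', ht', he⟩ := h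
              exact hT t' ht' (he.symm ▸ ht)
          rw [hz t h2, mul_zero] at h1
          exact (mul_eq_zero.mp h1.symm).resolve_left hμ
      · exact hz i hiR

lemma exists_not_bad {d : Fin n → Fˣ} {σ : Equiv.Perm (Fin n)}
    (h : ∀ c : Fˣ, monomialMap d σ ≠ (c : F) • LinearMap.id) :
    ∃ y, y ∉ Bad (monomialMap d σ) {0} := by
  classical
  by_contra hall
  push Not at hall
  have heig : ∀ y : Fin n → F, y = 0 ∨ ∃ μ : F, monomialMap d σ y = μ • y := by
    intro y
    obtain ⟨α, β, hab, he⟩ := hall y
    rw [Set.mem_singleton_iff] at he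
    by_cases hβ : β = 0
    · left
      rw [hβ, zero_smul, add_zero] at he
      exact (smul_eq_zero.mp he).resolve_left fun hα => hab ⟨hα, hβ⟩
    · right
      refine ⟨- (β⁻¹ * α), ?_⟩
      have : β⁻¹ • (α • y + β • monomialMap d σ y) = 0 := by rw [he, smul_zero]
      rw [smul_add, smul_smul, smul_smul, inv_mul_cancel₀ hβ, one_smul] at this
      rw [neg_smul]
      exact (neg_eq_of_add_eq_zero_right this).symm
  have hσ : ∀ i, σ i = i := by
    intro i
    rcases heig (Pi.single i 1) with h0 | ⟨μ, hμ⟩
    · exfalso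
      have := congrFun h0 i
      simp at this
    · have h1 := congrFun hμ (σ i)
      rw [monomialMap_apply, perm_inv_self, Pi.single_eq_same, mul_one,
        Pi.smul_apply, smul_eq_mul] at h1
      by_contra hne
      rw [Pi.single_eq_of_ne hne, mul_zero] at h1
      exact (d (σ i)).ne_zero h1
  have hσ' : ∀ i, σ⁻¹ i = i := fun i => by
    rw [Equiv.Perm.inv_eq_iff_eq]; exact (hσ i).symm
  have hd : ∀ i j, d i = d j := by
    intro i j
    by_cases hij : i = j
    · rw [hij]
    rcases heig (Pi.single i 1 + Pi.single j 1) with h0 | ⟨μ, hμ⟩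
    · exfalso
      have := congrFun h0 i
      simp [Pi.single_eq_of_ne hij] at this
    · have h1 := congrFun hμ i
      have h2 := congrFun hμ j
      rw [monomialMap_apply, hσ'] at h1 h2
      simp [Pi.single_eq_of_ne hij, Pi.single_eq_of_ne (Ne.symm hij)] at h1 h2
      exact Units.ext (by rw [h1, h2])
  rcases Nat.eq_zero_or_pos n with hn | hn
  · subst hn
    apply h 1
    ext x i
    exact i.elim0
  · apply h (d ⟨0, hn⟩)
    apply LinearMap.ext
    intro x
    funext i
    rw [monomialMap_apply, hσ', hd i ⟨0, hn⟩]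
    simp

lemma one_le_usupp {d : Fin n → Fˣ} {σ : Equiv.Perm (Fin n)}
    (h : ∀ c : Fˣ, monomialMap d σ ≠ (c : F) • LinearMap.id) (μ : F) :
    1 ≤ (usupp μ d σ).card := by
  by_contra h0
  have h1 : usupp μ d σ = ∅ := by
    rw [← Finset.card_eq_zero]; omega
  have h2 : ∀ i, σ i = i ∧ (d i : F) = μ := by
    intro i
    by_contra hi
    have := mem_usupp.mpr hi
    rw [h1] at this
    exact Finset.notMem_empty i this
  rcases Nat.eq_zero_or_pos n with hn | hn
  · subst hn
    apply h 1
    ext x i
    exact i.elim0
  · apply h (d ⟨0, hn⟩)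
    apply LinearMap.ext
    intro x
    funext i
    have hσ' : σ⁻¹ i = i := by
      rw [Equiv.Perm.inv_eq_iff_eq]; exact (h2 i).1.symm
    rw [monomialMap_apply, hσ', (h2 i).2, (h2 _).2]
    simp

end monomial

section counting

variable {F : Type*} [Field F] [Fintype F] {n : ℕ}

lemma fibreBound_monomial (d : Fin n → Fˣ) (σ : Equiv.Perm (Fin n)) (r : ℕ)
    (hr : ∀ μ : F, 3 * r ≤ (usupp μ d σ).card + 2) :
    FibreBound (monomialMap d σ) (Fintype.card F ^ (n - r)) := by
  classical
  intro α β hαβ w
  have hq : 0 < Fintype.card F := Fintype.card_pos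
  by_cases hβ : β = 0
  · have hα : α ≠ 0 := fun h => hαβ ⟨h, hβ⟩
    have hsub : {y : Fin n → F | α • y + β • monomialMap d σ y = w} ⊆ {α⁻¹ • w} := by
      intro y hy
      simp only [Set.mem_ofPred_eq, hβ, zero_smul, add_zero] at hy
      rw [Set.mem_singleton_iff, ← hy, smul_smul, inv_mul_cancel₀ hα, one_smul]
    calc _ ≤ ({α⁻¹ • w} : Set (Fin n → F)).ncard := Set.ncard_le_ncard hsub (Set.toFinite _)
      _ = 1 := Set.ncard_singleton _
      _ ≤ _ := Nat.one_le_pow _ _ hq
  · obtain ⟨R, hR, hR2⟩ := exists_R d σ (- (β⁻¹ * α))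
    have hrR : r ≤ R.card := by
      have := hr (- (β⁻¹ * α))
      omega
    let res : (Fin n → F) → ((Rᶜ : Finset (Fin n)) → F) := fun y i => y i
    have hinj : Set.InjOn res {y : Fin n → F | α • y + β • monomialMap d σ y = w} := by
      intro y hy y' hy' hres
      simp only [Set.mem_ofPred_eq] at hy hy'
      have hz : y - y' = 0 := by
        apply hR2
        · intro i hi
          have := congrFun hres ⟨i, Finset.mem_compl.mpr hi⟩
          simp only [res] at this
          rw [Pi.sub_apply, this, sub_self]
        · have h1 : α • (y - y') + β • monomialMap d σ (y - y') = 0 := by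
            rw [map_sub]
            have : α • (y - y') + β • (monomialMap d σ y - monomialMap d σ y') =
                (α • y + β • monomialMap d σ y) - (α • y' + β • monomialMap d σ y') := by module
            rw [this, hy, hy', sub_self]
          have h2 : β⁻¹ • (α • (y - y') + β • monomialMap d σ (y - y')) = 0 := by
            rw [h1, smul_zero]
          rw [smul_add, smul_smul, smul_smul, inv_mul_cancel₀ hβ, one_smul] at h2
          rw [neg_smul]
          exact (neg_eq_of_add_eq_zero_right h2).symm
      exact sub_eq_zero.mp hz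
    calc _ = (res '' {y : Fin n → F | α • y + β • monomialMap d σ y = w}).ncard :=
          hinj.ncard_image.symm
      _ ≤ (Set.univ : Set ((Rᶜ : Finset (Fin n)) → F)).ncard :=
          Set.ncard_le_ncard (Set.subset_univ _) (Set.toFinite _)
      _ = Fintype.card F ^ (Rᶜ : Finset (Fin n)).card := by
          rw [Set.ncard_univ, Nat.card_fun]
          simp only [Nat.card_eq_fintype_card, Fintype.card_coe]
      _ ≤ _ := by
          apply Nat.pow_le_pow_right hq
          rw [Finset.card_compl, Fintype.card_fin]
          omega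

/-- The number of monomial pairs which differ from the scalar `μ` on exactly `s` coordinates. -/
lemma ncard_usupp_eq (μ : F) (s : ℕ) :
    {p : (Fin n → Fˣ) × Equiv.Perm (Fin n) | (usupp μ p.1 p.2).card = s}.ncard ≤
      (n * n * Fintype.card F) ^ s := by
  classical
  let S : Set ((Fin n → Fˣ) × Equiv.Perm (Fin n)) := {p | (usupp μ p.1 p.2).card = s}
  let e : ∀ p : S, Fin s ≃ usupp μ p.1.1 p.1.2 := fun p =>
    (Finset.equivFinOfCardEq p.2).symm
  let code : S → (Fin s → Fin n) × (Fin s → Fin n) × (Fin s → Fˣ) := fun p =>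
    (fun j => (e p j : Fin n), fun j => p.1.2 (e p j), fun j => p.1.1 (e p j))
  have hinj : Function.Injective code := by
    intro p p' h
    simp only [code, Prod.mk.injEq] at h
    obtain ⟨h1, h2, h3⟩ := h
    have hU : ∀ i, i ∈ usupp μ p.1.1 p.1.2 ↔ i ∈ usupp μ p'.1.1 p'.1.2 := by
      intro i
      constructor
      · intro hi
        have := congrFun h1 ((e p).symm ⟨i, hi⟩)
        simp only [Equiv.apply_symm_apply] at this
        rw [this]
        exact (e p' _).2
      · intro hi
        have := congrFun h1 ((e p').symm ⟨i, hi⟩)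
        simp only [Equiv.apply_symm_apply] at this
        rw [← this]
        exact (e p _).2
    have hval : ∀ i, p.1.2 i = p'.1.2 i ∧ p.1.1 i = p'.1.1 i := by
      intro i
      by_cases hi : i ∈ usupp μ p.1.1 p.1.2
      · have a1 := congrFun h1 ((e p).symm ⟨i, hi⟩)
        have a2 := congrFun h2 ((e p).symm ⟨i, hi⟩)
        have a3 := congrFun h3 ((e p).symm ⟨i, hi⟩)
        simp only [Equiv.apply_symm_apply] at a1 a2 a3
        rw [← a1] at a2 a3
        exact ⟨a2, a3⟩
      · have hi' : i ∉ usupp μ p'.1.1 p'.1.2 := fun h => hi ((hU i).mpr h)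
        rw [mem_usupp, not_not] at hi hi'
        refine ⟨by rw [hi.1, hi'.1], Units.ext (by rw [hi.2, hi'.2])⟩
    apply Subtype.ext
    apply Prod.ext
    · funext i; exact (hval i).2
    · apply Equiv.ext; intro i; exact (hval i).1
  have hle : Nat.card S ≤ Nat.card ((Fin s → Fin n) × (Fin s → Fin n) × (Fin s → Fˣ)) :=
    Nat.card_le_card_of_injective code hinj
  have hu : Fintype.card Fˣ ≤ Fintype.card F :=
    Fintype.card_le_of_injective _ Units.val_injective
  calc _ = Nat.card S := rfl
    _ ≤ _ := hle
    _ = (n * n * Fintype.card Fˣ) ^ s := by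
        rw [Nat.card_prod, Nat.card_prod, Nat.card_fun, Nat.card_fun]
        simp only [Nat.card_eq_fintype_card, Fintype.card_fin]
        ring
    _ ≤ _ := by gcongr

end counting

end Pool.Agent.LibRigid
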