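import Mathlib
import Pool.Agent.LibRigid.Monomial

/-!
From subspaces to tuples, and the union bound.
-/

namespace Pool.Agent.LibRigid

open Finset Module

section fibres

variable {F : Type*} [Field F] [Fintype F] {V : Type*} [AddCommGroup V] [Module F V] [Finite V]
  {k : ℕ}

lemma ncard_fibre (C : Submodule F V) (hC : finrank F C = k) :
    {x : Fin k → V | LinearIndependent F x ∧ Submodule.span F (Set.range x) = C}.ncard =
      ∏ i : Fin k, (Fintype.card F ^ k - Fintype.card F ^ (i : ℕ)) := by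
  have hcard := card_linearIndependent (K := F) (V := C) (k := k) (le_of_eq hC.symm)
  rw [hC] at hcard
  rw [← hcard]
  apply Nat.card_congr
  refine ⟨fun x => ⟨fun i => ⟨x.1 i, ?_⟩, ?_⟩, fun y => ⟨fun i => (y.1 i : V), ?_, ?_⟩, ?_, ?_⟩
  · exact (le_of_eq x.2.2) (Submodule.subset_span (Set.mem_range_self i))
  · have h1 := x.2.1
    rw [linearIndependent_iff'] at h1 ⊢
    intro s c hc i hi
    apply h1 s c _ i hi
    have := congrArg (fun z : C => (z : V)) hc
    simpa using this
  · have h1 := y.2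
    exact h1.map' C.subtype (Submodule.ker_subtype C)
  · have h1 : Submodule.span F (Set.range fun i => (y.1 i : V)) =
        (Submodule.span F (Set.range y.1)).map C.subtype := by
      rw [Submodule.map_span]
      congr 1
      ext v
      simp
    rw [h1]
    have h2 : Submodule.span F (Set.range y.1) = ⊤ := by
      apply y.2.span_eq_top_of_card_eq_finrank'
      rw [Fintype.card_fin, hC]
    rw [h2, Submodule.map_top, Submodule.range_subtype]
  · intro x
    rfl
  · intro y
    rfl

lemma finite_submodule : Finite (Submodule F V) :=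
  Finite.of_injective (fun C : Submodule F V => (C : Set V)) SetLike.coe_injective

lemma card_subspaces (Q : Submodule F V → Prop) :
    Nat.card {C : Submodule F V // finrank F C = k ∧ Q C} *
      ∏ i : Fin k, (Fintype.card F ^ k - Fintype.card F ^ (i : ℕ)) =
    {x : Fin k → V | LinearIndependent F x ∧ Q (Submodule.span F (Set.range x))}.ncard := by
  classical
  have : Finite (Submodule F V) := finite_submodule
  have : Fintype (Submodule F V) := Fintype.ofFinite _
  have : Fintype V := Fintype.ofFinite _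
  let S : Finset (Fin k → V) := Finset.univ.filter fun x =>
    LinearIndependent F x ∧ Q (Submodule.span F (Set.range x))
  let T : Finset (Submodule F V) := Finset.univ.filter fun C => finrank F C = k ∧ Q C
  have hS : {x : Fin k → V | LinearIndependent F x ∧ Q (Submodule.span F (Set.range x))}.ncard
      = S.card := by
    rw [← Set.ncard_coe_finset]
    congr 1
    ext x
    simp [S]
  have hT : Nat.card {C : Submodule F V // finrank F C = k ∧ Q C} = T.card := by
    rw [Nat.card_eq_fintype_card, Fintype.card_subtype]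
  rw [hS, hT]
  have hmap : ∀ x ∈ S, Submodule.span F (Set.range x) ∈ T := by
    intro x hx
    simp only [S, T, Finset.mem_filter, Finset.mem_univ, true_and] at hx ⊢
    refine ⟨?_, hx.2⟩
    rw [finrank_span_eq_card hx.1, Fintype.card_fin]
  rw [Finset.card_eq_sum_card_fiberwise hmap]
  rw [← smul_eq_mul, ← Finset.sum_const]
  apply Finset.sum_congr rfl
  intro C hC
  simp only [T, Finset.mem_filter, Finset.mem_univ, true_and] at hC
  rw [← ncard_fibre C hC.1, ← Set.ncard_coe_finset]
  congr 1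
  ext x
  simp only [S, Set.mem_ofPred_eq, Finset.coe_filter, Finset.mem_filter, Finset.mem_univ, true_and]
  constructor
  · rintro ⟨h1, h2⟩
    refine ⟨⟨h1, ?_⟩, h2⟩
    rw [h2]; exact hC.2
  · rintro ⟨⟨h1, _⟩, h2⟩
    exact ⟨h1, h2⟩

end fibres

section lower

/-- Linearly independent tuples are at least half of all tuples. -/
lemma prod_lower (q : ℝ) (hq : 3 ≤ q) (n : ℕ) :
    ∀ k : ℕ, k ≤ n → 1 - q ^ k / (2 * q ^ n) ≤ ∏ i ∈ Finset.range k, (1 - q ^ i / q ^ n) := by
  have hqp : 0 < q := by linarith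
  have hqn : 0 < q ^ n := by positivity
  intro k
  induction k with
  | zero =>
    intro _
    simp only [Finset.range_zero, Finset.prod_empty]
    have : 0 ≤ q ^ 0 / (2 * q ^ n) := by positivity
    linarith
  | succ k ih =>
    intro hk
    have ih' := ih (by omega)
    rw [Finset.prod_range_succ]
    have h1 : q ^ k / q ^ n ≤ 1 := by
      rw [div_le_one hqn]
      exact pow_le_pow_right₀ (by linarith) (by omega)
    have h0 : 0 ≤ q ^ k / q ^ n := by positivity
    have hP1 : ∏ i ∈ Finset.range k, (1 - q ^ i / q ^ n) ≤ 1 := by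
      apply Finset.prod_le_one
      · intro i hi
        rw [Finset.mem_range] at hi
        have : q ^ i / q ^ n ≤ 1 := by
          rw [div_le_one hqn]
          exact pow_le_pow_right₀ (by linarith) (by omega)
        linarith
      · intro i _
        have : 0 ≤ q ^ i / q ^ n := by positivity
        linarith
    have h2 : (∏ i ∈ Finset.range k, (1 - q ^ i / q ^ n)) * (1 - q ^ k / q ^ n) ≥
        (∏ i ∈ Finset.range k, (1 - q ^ i / q ^ n)) - q ^ k / q ^ n := by nlinarith
    have h3 : q ^ (k + 1) / (2 * q ^ n) ≥ (3 / 2) * (q ^ k / q ^ n) := by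
      have : q ^ (k + 1) / (2 * q ^ n) = (q / 2) * (q ^ k / q ^ n) := by
        rw [pow_succ]; field_simp
      rw [this]
      nlinarith
    have h4 : q ^ k / (2 * q ^ n) = (1 / 2) * (q ^ k / q ^ n) := by field_simp
    linarith

lemma li_lower {F : Type*} [Field F] [Fintype F] (hF : 2 < Fintype.card F) {n k : ℕ} (hk : k ≤ n) :
    ((Fintype.card F : ℝ) ^ n) ^ k / 2 ≤
      ({x : Fin k → (Fin n → F) | LinearIndependent F x}.ncard : ℝ) := by
  have h1 : {x : Fin k → (Fin n → F) | LinearIndependent F x}.ncard =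
      ∏ i : Fin k, (Fintype.card F ^ n - Fintype.card F ^ (i : ℕ)) := by
    have := card_linearIndependent (K := F) (V := Fin n → F) (k := k) (by simpa using hk)
    rw [Module.finrank_fintype_fun_eq_card, Fintype.card_fin] at this
    rw [← this]
    rfl
  rw [h1]
  set q : ℝ := (Fintype.card F : ℝ) with hq
  have hq3 : 3 ≤ q := by
    have : 3 ≤ Fintype.card F := hF
    rw [hq]; exact_mod_cast this
  have hqn : 0 < q ^ n := by positivity
  have h2 : ((∏ i : Fin k, (Fintype.card F ^ n - Fintype.card F ^ (i : ℕ)) : ℕ) : ℝ) =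
      (q ^ n) ^ k * ∏ i ∈ Finset.range k, (1 - q ^ i / q ^ n) := by
    rw [Fin.prod_univ_eq_prod_range (fun i => Fintype.card F ^ n - Fintype.card F ^ i) k]
    rw [Nat.cast_prod]
    have : (q ^ n) ^ k = ∏ i ∈ Finset.range k, q ^ n := by
      rw [Finset.prod_const, Finset.card_range]
    rw [this, ← Finset.prod_mul_distrib]
    apply Finset.prod_congr rfl
    intro i hi
    rw [Finset.mem_range] at hi
    have hle : Fintype.card F ^ i ≤ Fintype.card F ^ n :=
      Nat.pow_le_pow_right Fintype.card_pos (by omega)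
    rw [Nat.cast_sub hle]
    push_cast
    rw [← hq]
    field_simp
  rw [h2]
  have h3 := prod_lower q hq3 n k hk
  have h4 : q ^ k / (2 * q ^ n) ≤ 1 / 2 := by
    rw [div_le_div_iff₀ (by positivity) (by norm_num)]
    have : q ^ k ≤ q ^ n := pow_le_pow_right₀ (by linarith) hk
    linarith
  have h5 : (0 : ℝ) < (q ^ n) ^ k := by positivity
  nlinarith

end lower

section union

variable {F : Type*} [Field F] [Fintype F] {n k : ℕ}

/-- Tuples whose span is stable under the monomial map of `p`. -/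
def Stab (k : ℕ) (p : (Fin n → Fˣ) × Equiv.Perm (Fin n)) : Set (Fin k → (Fin n → F)) :=
  {x | ∀ i, monomialMap p.1 p.2 (x i) ∈ Submodule.span F (Set.range x)}

/-- Monomial pairs that are not scalar. -/
def NonScalar (p : (Fin n → Fˣ) × Equiv.Perm (Fin n)) : Prop :=
  ∀ c : Fˣ, monomialMap p.1 p.2 ≠ (c : F) • LinearMap.id

lemma union_bound (B : ℕ → ℝ) (hB0 : ∀ s, 0 ≤ B s)
    (hB : ∀ s, 1 ≤ s → s ≤ n → ∀ p : (Fin n → Fˣ) × Equiv.Perm (Fin n), NonScalar p →
      (∀ μ : F, s ≤ (usupp μ p.1 p.2).card) → ((Stab k p).ncard : ℝ) ≤ B s) :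
    ((⋃ p ∈ {p : (Fin n → Fˣ) × Equiv.Perm (Fin n) | NonScalar p}, Stab (F := F) k p).ncard : ℝ) ≤
      ∑ s ∈ Finset.Icc 1 n, (Fintype.card F : ℝ) * ((n * n * Fintype.card F : ℕ) : ℝ) ^ s * B s := by
  classical
  let A : ℕ → F → Finset ((Fin n → Fˣ) × Equiv.Perm (Fin n)) := fun s μ =>
    Finset.univ.filter fun p => (usupp μ p.1 p.2).card = s ∧ NonScalar p ∧
      ∀ μ' : F, s ≤ (usupp μ' p.1 p.2).card
  have hsub : (⋃ p ∈ {p : (Fin n → Fˣ) × Equiv.Perm (Fin n) | NonScalar p}, Stab (F := F) k p) ⊆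
      ⋃ s ∈ Finset.Icc 1 n, ⋃ μ ∈ (Finset.univ : Finset F), ⋃ p ∈ A s μ, Stab (F := F) k p := by
    intro x hx
    simp only [Set.mem_iUnion, Set.mem_ofPred_eq] at hx
    obtain ⟨p, hp, hx⟩ := hx
    obtain ⟨μ, -, hμ⟩ := Finset.exists_min_image (Finset.univ : Finset F)
      (fun μ => (usupp μ p.1 p.2).card) Finset.univ_nonempty
    simp only [Set.mem_iUnion]
    refine ⟨(usupp μ p.1 p.2).card, ?_, μ, Finset.mem_univ _, p, ?_, hx⟩
    · rw [Finset.mem_Icc]
      refine ⟨one_le_usupp hp μ, ?_⟩
      simpa using Finset.card_le_univ (usupp μ p.1 p.2)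
    · simp only [A, Finset.mem_filter, Finset.mem_univ, true_and]
      exact ⟨hp, fun μ' => hμ μ' (Finset.mem_univ _)⟩
  have h1 : ((⋃ p ∈ {p : (Fin n → Fˣ) × Equiv.Perm (Fin n) | NonScalar p},
      Stab (F := F) k p).ncard : ℝ) ≤
      ((∑ s ∈ Finset.Icc 1 n, ∑ μ ∈ (Finset.univ : Finset F), ∑ p ∈ A s μ,
        (Stab (F := F) k p).ncard : ℕ) : ℝ) := by
    norm_cast
    refine (Set.ncard_le_ncard hsub (Set.toFinite _)).trans ?_
    refine (Finset.set_ncard_biUnion_le _ _).trans ?_
    apply Finset.sum_le_sum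
    intro s _
    refine (Finset.set_ncard_biUnion_le _ _).trans ?_
    apply Finset.sum_le_sum
    intro μ _
    exact Finset.set_ncard_biUnion_le _ _
  refine h1.trans ?_
  push_cast
  apply Finset.sum_le_sum
  intro s hs
  rw [Finset.mem_Icc] at hs
  calc ∑ μ ∈ (Finset.univ : Finset F), ∑ p ∈ A s μ, ((Stab (F := F) k p).ncard : ℝ)
      ≤ ∑ μ ∈ (Finset.univ : Finset F), ((n * n * Fintype.card F : ℕ) : ℝ) ^ s * B s := by
        apply Finset.sum_le_sum
        intro μ _
        calc ∑ p ∈ A s μ, ((Stab (F := F) k p).ncard : ℝ) ≤ ∑ p ∈ A s μ, B s := by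
              apply Finset.sum_le_sum
              intro p hp
              simp only [A, Finset.mem_filter, Finset.mem_univ, true_and] at hp
              exact hB s hs.1 hs.2 p hp.2.1 hp.2.2
          _ = (A s μ).card * B s := by rw [Finset.sum_const, nsmul_eq_mul]
          _ ≤ _ := by
              apply mul_le_mul_of_nonneg_right _ (hB0 s)
              have h2 := ncard_usupp_eq (n := n) μ s
              have h3 : (A s μ).card ≤
                  {p : (Fin n → Fˣ) × Equiv.Perm (Fin n) | (usupp μ p.1 p.2).card = s}.ncard := by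
                rw [← Set.ncard_coe_finset]
                apply Set.ncard_le_ncard _ (Set.toFinite _)
                intro p hp
                simp only [A, Finset.coe_filter, Finset.mem_univ, true_and,
                  Set.mem_ofPred_eq] at hp ⊢
                exact hp.1
              exact_mod_cast h3.trans h2
    _ = _ := by
        rw [Finset.sum_const, nsmul_eq_mul, Finset.card_univ]
        push_cast
        ring

/-- Bound with one good vector, for all non-scalar monomial maps. -/
lemma stab_small (hF : 2 < Fintype.card F) {p : (Fin n → Fˣ) × Equiv.Perm (Fin n)}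
    (hp : NonScalar p) (hk1 : 1 ≤ k) :
    ((Stab (F := F) k p).ncard : ℝ) ≤ ((Fintype.card F : ℝ) ^ n) ^ k *
      (k * ((Fintype.card F : ℝ) ^ k / (Fintype.card F : ℝ) ^ n) + (2 / 3) ^ k) := by
  obtain ⟨y, hy⟩ := exists_not_bad hp
  have h1 := ncard_Bad_zero hy
  have h2 := ncard_stable_one (k := k) (monomialMap p.1 p.2)
  have hcardV : Fintype.card (Fin n → F) = Fintype.card F ^ n := by
    rw [Fintype.card_fun, Fintype.card_fin]
  rw [hcardV] at h1 h2
  set q : ℝ := (Fintype.card F : ℝ) with hq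
  have hq3 : 3 ≤ q := by
    have : 3 ≤ Fintype.card F := hF
    rw [hq]; exact_mod_cast this
  have hqn : 0 < q ^ n := by positivity
  have h3 : ((Bad (monomialMap p.1 p.2) {0}).ncard : ℝ) ≤ 2 / 3 * q ^ n := by
    have : q * ((Bad (monomialMap p.1 p.2) {0}).ncard : ℝ) ≤ 2 * q ^ n := by
      rw [hq]; exact_mod_cast h1
    have h4 : 3 * ((Bad (monomialMap p.1 p.2) {0}).ncard : ℝ) ≤
        q * ((Bad (monomialMap p.1 p.2) {0}).ncard : ℝ) :=
      mul_le_mul_of_nonneg_right hq3 (by positivity)
    linarith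
  have h5 : ((Stab (F := F) k p).ncard : ℝ) ≤ k * (q ^ k * (q ^ n) ^ (k - 1)) +
      ((Bad (monomialMap p.1 p.2) {0}).ncard : ℝ) ^ k := by
    rw [hq]
    exact_mod_cast h2
  refine h5.trans ?_
  rw [mul_add]
  apply add_le_add
  · apply le_of_eq
    obtain ⟨m, rfl⟩ : ∃ m, k = m + 1 := ⟨k - 1, by omega⟩
    rw [Nat.add_sub_cancel, pow_succ (q ^ n) m]
    field_simp
  · rw [← mul_pow]
    apply pow_le_pow_left₀ (by positivity)
    linarith

/-- Bound for monomial maps far from the scalars. -/
lemma stab_large {p : (Fin n → Fˣ) × Equiv.Perm (Fin n)} {s r g : ℕ}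
    (hs : ∀ μ : F, s ≤ (usupp μ p.1 p.2).card) (hr : 3 * r ≤ s + 2) (hrn : r ≤ n) (hgk : g ≤ k)
    (D : ℕ) (hD : ∀ j, j < g → 2 + 2 * j ≤ r ∧ D ≤ (r - (2 + 2 * j)) * (k - j)) :
    ((Stab (F := F) k p).ncard : ℝ) ≤ ((Fintype.card F : ℝ) ^ n) ^ k *
      ((k * ((Fintype.card F : ℝ) ^ k / (Fintype.card F : ℝ) ^ n)) ^ g +
        2 ^ k / (Fintype.card F : ℝ) ^ D) := by
  have hfb : FibreBound (monomialMap p.1 p.2) (Fintype.card F ^ (n - r)) := by
    apply fibreBound_monomial
    intro μ
    have := hs μ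
    omega
  have h2 := ncard_stable (k := k) hfb g
  have hcardV : Fintype.card (Fin n → F) = Fintype.card F ^ n := by
    rw [Fintype.card_fun, Fintype.card_fin]
  rw [hcardV] at h2
  have hqN : 1 ≤ Fintype.card F := Fintype.card_pos
  set q : ℝ := (Fintype.card F : ℝ) with hq
  have hq1 : 1 ≤ q := by rw [hq]; exact_mod_cast hqN
  have hq0 : 0 < q := by linarith
  have hqn : 0 < q ^ n := by positivity
  have h5 : ((Stab (F := F) k p).ncard : ℝ) ≤
      k.choose g * (q ^ (k * g) * (q ^ n) ^ (k - g)) +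
      ∑ j ∈ Finset.range g, k.choose j * ((q ^ n) ^ j *
        (q ^ 2 * (q ^ (2 * j) * q ^ (n - r))) ^ (k - j)) := by
    rw [hq]
    exact_mod_cast h2
  refine h5.trans ?_
  rw [mul_add]
  apply add_le_add
  · have hch : ((k.choose g : ℕ) : ℝ) ≤ (k : ℝ) ^ g := by
      exact_mod_cast Nat.choose_le_pow k g
    have e1 : (q ^ n) ^ k = (q ^ n) ^ g * (q ^ n) ^ (k - g) := by
      rw [← pow_add]; congr 1; omega
    rw [e1, mul_pow, div_pow, ← pow_mul q k g]
    have e2 : (q ^ n) ^ g * (q ^ n) ^ (k - g) * (↑k ^ g * (q ^ (k * g) / (q ^ n) ^ g)) =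
        (k : ℝ) ^ g * (q ^ (k * g) * (q ^ n) ^ (k - g)) := by
      field_simp
    rw [e2]
    apply mul_le_mul_of_nonneg_right hch (by positivity)
  · have hterm : ∀ j ∈ Finset.range g, (k.choose j : ℝ) * ((q ^ n) ^ j *
        (q ^ 2 * (q ^ (2 * j) * q ^ (n - r))) ^ (k - j)) ≤
        (k.choose j : ℝ) * ((q ^ n) ^ k / q ^ D) := by
      intro j hj
      rw [Finset.mem_range] at hj
      obtain ⟨hj1, hj2⟩ := hD j hj
      apply mul_le_mul_of_nonneg_left _ (by positivity)
      rw [le_div_iff₀ (by positivity)]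
      have e3 : (q ^ n) ^ k = (q ^ n) ^ j * (q ^ n) ^ (k - j) := by
        rw [← pow_add]; congr 1; omega
      rw [e3, mul_assoc]
      apply mul_le_mul_of_nonneg_left _ (by positivity)
      have e4 : q ^ 2 * (q ^ (2 * j) * q ^ (n - r)) = q ^ (2 + 2 * j + (n - r)) := by
        rw [pow_add, pow_add, mul_assoc]
      rw [e4, ← pow_mul, ← pow_mul, ← pow_add]
      apply pow_le_pow_right₀ hq1
      have e5 : n = (2 + 2 * j + (n - r)) + (r - (2 + 2 * j)) := by omega
      calc (2 + 2 * j + (n - r)) * (k - j) + D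
          ≤ (2 + 2 * j + (n - r)) * (k - j) + (r - (2 + 2 * j)) * (k - j) := by omega
        _ = n * (k - j) := by rw [← add_mul, ← e5]
    refine (Finset.sum_le_sum hterm).trans ?_
    rw [← Finset.sum_mul]
    have hsum : ∑ j ∈ Finset.range g, ((k.choose j : ℕ) : ℝ) ≤ 2 ^ k := by
      have h6 : ∑ j ∈ Finset.range g, k.choose j ≤ 2 ^ k := by
        rw [← Nat.sum_range_choose]
        apply Finset.sum_le_sum_of_subset
        intro j hj
        rw [Finset.mem_range] at hj ⊢
        omega
      exact_mod_cast h6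
    calc _ ≤ (2 : ℝ) ^ k * ((q ^ n) ^ k / q ^ D) :=
          mul_le_mul_of_nonneg_right hsum (by positivity)
      _ = _ := by ring

end union

end Pool.Agent.LibRigid
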