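import Mathlib
import Pool.Agent.LibRigid.Total

/-!
Asymptotic estimates.
-/

namespace Pool.Agent.LibRigid

open Finset Module Filter Topology

/-- Polynomial times exponential along integer division. -/
lemma tendsto_poly_exp (C : ℝ) (A b : ℕ) (hb : 0 < b) :
    Tendsto (fun n : ℕ => C * ((n : ℝ) + 1) ^ A * (2 / 3 : ℝ) ^ (n / b)) atTop (𝓝 0) := by
  have h1 : Tendsto (fun j : ℕ => ((j : ℝ)) ^ A / (3 / 2 : ℝ) ^ j) atTop (𝓝 0) :=
    tendsto_pow_const_div_const_pow_of_one_lt A (by norm_num)
  have h2 : Tendsto (fun j : ℕ => (((j + 1 : ℕ) : ℝ)) ^ A / (3 / 2 : ℝ) ^ (j + 1)) atTop (𝓝 0) :=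
    h1.comp (tendsto_add_atTop_nat 1)
  have h3 : Tendsto (fun n : ℕ => n / b) atTop atTop :=
    Nat.tendsto_div_const_atTop (by omega)
  have h4 := h2.comp h3
  have h5 : Tendsto (fun n : ℕ => (|C| * (b : ℝ) ^ A * (3 / 2)) *
      ((((n / b + 1 : ℕ) : ℝ)) ^ A / (3 / 2 : ℝ) ^ (n / b + 1))) atTop (𝓝 0) := by
    have := h4.const_mul (|C| * (b : ℝ) ^ A * (3 / 2))
    rw [mul_zero] at this
    exact this
  apply squeeze_zero_norm _ h5
  intro n
  rw [Real.norm_eq_abs, abs_mul, abs_mul, abs_of_nonneg (a := ((n : ℝ) + 1) ^ A) (by positivity),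
    abs_of_nonneg (a := (2 / 3 : ℝ) ^ (n / b)) (by positivity)]
  have hn : ((n : ℝ) + 1) ≤ b * ((n / b + 1 : ℕ) : ℝ) := by
    have : n + 1 ≤ b * (n / b + 1) := Nat.lt_mul_div_succ n hb
    exact_mod_cast this
  have h6 : ((n : ℝ) + 1) ^ A ≤ (b : ℝ) ^ A * ((n / b + 1 : ℕ) : ℝ) ^ A := by
    rw [← mul_pow]
    exact pow_le_pow_left₀ (by positivity) hn A
  have h7 : (2 / 3 : ℝ) ^ (n / b) = (3 / 2) / (3 / 2 : ℝ) ^ (n / b + 1) := by
    rw [pow_succ]
    have : (2 / 3 : ℝ) = (3 / 2)⁻¹ := by norm_num
    rw [this, inv_pow]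
    field_simp
  rw [h7]
  calc |C| * ((n : ℝ) + 1) ^ A * ((3 / 2) / (3 / 2 : ℝ) ^ (n / b + 1))
      ≤ |C| * ((b : ℝ) ^ A * ((n / b + 1 : ℕ) : ℝ) ^ A) * ((3 / 2) / (3 / 2 : ℝ) ^ (n / b + 1)) := by
        apply mul_le_mul_of_nonneg_right _ (by positivity)
        exact mul_le_mul_of_nonneg_left h6 (abs_nonneg _)
    _ = _ := by ring

section main

variable {F : Type*} [Field F] [Fintype F]

/-- The numerical estimate for the union of the stable tuples. -/
lemma union_estimate (hF : 2 < Fintype.card F) {n k a : ℕ} (ha : 1 ≤ a) (hn : 1 ≤ n)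
    (hkn : k ≤ n) (h1 : n ≤ a * k) (h2 : n ≤ a * (n - k))
    (hη : ((n * n * Fintype.card F : ℕ) : ℝ) ^ (12 * a) * n *
      (2 / 3 : ℝ) ^ (n / (48 * a)) ≤ 1) :
    ((⋃ p ∈ {p : (Fin n → Fˣ) × Equiv.Perm (Fin n) | NonScalar p}, Stab (F := F) k p).ncard : ℝ) ≤
      ((Fintype.card F : ℝ) ^ n) ^ k * (3 * (Fintype.card F : ℝ) ^ (48 * a + 2) *
        ((n : ℝ) + 1) ^ (96 * a + 3) * (2 / 3 : ℝ) ^ (n / (48 * a))) := by
  classical
  set q : ℝ := (Fintype.card F : ℝ) with hq
  have hq3 : 3 ≤ q := by
    have : 3 ≤ Fintype.card F := hF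
    rw [hq]; exact_mod_cast this
  have hq1 : 1 ≤ q := by linarith
  have hq0 : 0 < q := by linarith
  set j := n / (48 * a) with hj
  set X : ℝ := ((n * n * Fintype.card F : ℕ) : ℝ) with hX
  have hnR : (1 : ℝ) ≤ n := by exact_mod_cast hn
  have hX' : X = n * n * q := by rw [hX, hq]; push_cast; ring
  have hX1 : 1 ≤ X := by
    rw [hX']
    have : (1 : ℝ) ≤ n * n := by nlinarith
    nlinarith
  have hjn : 48 * a * j ≤ n := by
    rw [hj]; exact Nat.mul_div_le n (48 * a)
  have hjn' : n < 48 * a * (j + 1) := by
    rw [hj]; exact Nat.lt_mul_div_succ n (by omega)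
  have hk48 : 48 * j ≤ k := by
    have : a * (48 * j) ≤ a * k := by
      calc a * (48 * j) = 48 * a * j := by ring
        _ ≤ n := hjn
        _ ≤ a * k := h1
    exact Nat.le_of_mul_le_mul_left this (by omega)
  have hk1 : 1 ≤ k := by
    by_contra h
    have : k = 0 := by omega
    subst this
    omega
  have hnk48 : 48 * j ≤ n - k := by
    have : a * (48 * j) ≤ a * (n - k) := by
      calc a * (48 * j) = 48 * a * j := by ring
        _ ≤ n := hjn
        _ ≤ a * (n - k) := h2
    exact Nat.le_of_mul_le_mul_left this (by omega)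
  have hρ : q ^ k / q ^ n ≤ (2 / 3 : ℝ) ^ j := by
    have e1 : q ^ n = q ^ k * q ^ (n - k) := by rw [← pow_add]; congr 1; omega
    rw [e1]
    have e2 : q ^ k / (q ^ k * q ^ (n - k)) = (1 / q) ^ (n - k) := by
      rw [one_div, inv_pow]; field_simp
    rw [e2]
    calc (1 / q) ^ (n - k) ≤ (2 / 3 : ℝ) ^ (n - k) := by
          apply pow_le_pow_left₀ (by positivity)
          rw [div_le_div_iff₀ hq0 (by norm_num)]
          linarith
      _ ≤ (2 / 3 : ℝ) ^ j := pow_le_pow_of_le_one (by norm_num) (by norm_num) (by omega)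
  have hqj : 1 / q ^ j ≤ (2 / 3 : ℝ) ^ j := by
    rw [← one_div_pow]
    apply pow_le_pow_left₀ (by positivity)
    rw [div_le_div_iff₀ hq0 (by norm_num)]
    linarith
  have hkR : (k : ℝ) ≤ n := by exact_mod_cast hkn
  have hlam : 0 < (2 / 3 : ℝ) ^ j := by positivity
  set lam : ℝ := (2 / 3 : ℝ) ^ j with hlamdef
  -- the bounding function
  let β : ℕ → ℝ := fun s => if s < 48 * a then (k * (q ^ k / q ^ n) + (2 / 3) ^ k)
    else ((k * (q ^ k / q ^ n)) ^ (s / (12 * a) + 1) + 2 ^ k / q ^ (2 * s * j))
  have hβ0 : ∀ s, 0 ≤ β s := by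
    intro s
    simp only [β]
    split_ifs <;> positivity
  have hmain := union_bound (F := F) (n := n) (k := k) (fun s => (q ^ n) ^ k * β s)
    (fun s => mul_nonneg (by positivity) (hβ0 s)) ?_
  · refine hmain.trans ?_
    -- each summand
    have hterm : ∀ s ∈ Finset.Icc 1 n, q * X ^ s * ((q ^ n) ^ k * β s) ≤
        (q ^ n) ^ k * (q * ((X ^ (48 * a) * (n + 1) + X ^ (12 * a) * n + q ^ (48 * a) * X) * lam)) := by
      intro s hs
      rw [Finset.mem_Icc] at hs
      have hred : X ^ s * β s ≤
          (X ^ (48 * a) * (n + 1) + X ^ (12 * a) * n + q ^ (48 * a) * X) * lam := by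
        have p1 : 0 ≤ X ^ (48 * a) * ((n : ℝ) + 1) * lam := by positivity
        have p2 : 0 ≤ X ^ (12 * a) * (n : ℝ) * lam := by positivity
        have p3 : 0 ≤ q ^ (48 * a) * X * lam := by positivity
        by_cases hs48 : s < 48 * a
        · simp only [β, hs48, if_true]
          have e1 : X ^ s ≤ X ^ (48 * a) := pow_le_pow_right₀ hX1 (by omega)
          have e2 : k * (q ^ k / q ^ n) + (2 / 3 : ℝ) ^ k ≤ (n + 1) * lam := by
            have e3 : k * (q ^ k / q ^ n) ≤ n * lam := by
              apply mul_le_mul hkR hρ (by positivity) (by positivity)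
            have e4 : (2 / 3 : ℝ) ^ k ≤ lam :=
              pow_le_pow_of_le_one (by norm_num) (by norm_num) (by omega)
            linarith
          have e5 : X ^ s * (k * (q ^ k / q ^ n) + (2 / 3 : ℝ) ^ k) ≤
              X ^ (48 * a) * ((n + 1) * lam) :=
            mul_le_mul e1 e2 (by positivity) (by positivity)
          nlinarith
        · simp only [β, hs48, if_false]
          rw [mul_add]
          have f1 : X ^ s * (k * (q ^ k / q ^ n)) ^ (s / (12 * a) + 1) ≤ X ^ (12 * a) * n * lam := by
            have g1 : s ≤ 12 * a * (s / (12 * a) + 1) :=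
              (Nat.lt_mul_div_succ s (by omega)).le
            have g2 : X ^ s ≤ (X ^ (12 * a)) ^ (s / (12 * a) + 1) := by
              rw [← pow_mul]
              exact pow_le_pow_right₀ hX1 g1
            have g3 : k * (q ^ k / q ^ n) ≤ n * lam :=
              mul_le_mul hkR hρ (by positivity) (by positivity)
            calc X ^ s * (k * (q ^ k / q ^ n)) ^ (s / (12 * a) + 1)
                ≤ (X ^ (12 * a)) ^ (s / (12 * a) + 1) * (n * lam) ^ (s / (12 * a) + 1) := by
                  apply mul_le_mul g2 _ (by positivity) (by positivity)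
                  exact pow_le_pow_left₀ (by positivity) g3 _
              _ = (X ^ (12 * a) * n * lam) ^ (s / (12 * a) + 1) := by
                  rw [← mul_pow]; ring
              _ ≤ (X ^ (12 * a) * n * lam) ^ 1 :=
                  pow_le_pow_of_le_one (by positivity) hη (Nat.le_add_left 1 _)
              _ = _ := pow_one _
          have f2 : X ^ s * (2 ^ k / q ^ (2 * s * j)) ≤ q ^ (48 * a) * X * lam := by
            have g1 : (2 : ℝ) ^ k ≤ q ^ (s * j + 48 * a) := by
              calc (2 : ℝ) ^ k ≤ q ^ k := pow_le_pow_left₀ (by norm_num) (by linarith) _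
                _ ≤ q ^ (s * j + 48 * a) := by
                    apply pow_le_pow_right₀ hq1
                    have : 48 * a * j ≤ s * j := Nat.mul_le_mul_right _ (by omega)
                    have h48 : 48 * a * (j + 1) = 48 * a * j + 48 * a := by ring
                    omega
            have g2 : (2 : ℝ) ^ k / q ^ (2 * s * j) ≤ q ^ (48 * a) * (1 / q ^ j) ^ s := by
              rw [div_le_iff₀ (by positivity)]
              calc (2 : ℝ) ^ k ≤ q ^ (s * j + 48 * a) := g1
                _ = q ^ (48 * a) * (1 / q ^ j) ^ s * q ^ (2 * s * j) := by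
                    rw [one_div, inv_pow, ← pow_mul, pow_add]
                    have : q ^ (2 * s * j) = q ^ (s * j) * q ^ (j * s) := by
                      rw [← pow_add]; congr 1; ring
                    rw [this]
                    field_simp
            have g3 : X * lam ≤ 1 := by
              refine le_trans ?_ hη
              apply mul_le_mul_of_nonneg_right _ hlam.le
              calc X = X ^ 1 * 1 := by ring
                _ ≤ X ^ (12 * a) * n := by
                    apply mul_le_mul _ hnR (by norm_num) (by positivity)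
                    exact pow_le_pow_right₀ hX1 (by omega)
            calc X ^ s * (2 ^ k / q ^ (2 * s * j)) ≤ X ^ s * (q ^ (48 * a) * (1 / q ^ j) ^ s) :=
                  mul_le_mul_of_nonneg_left g2 (by positivity)
              _ ≤ X ^ s * (q ^ (48 * a) * lam ^ s) := by
                  apply mul_le_mul_of_nonneg_left _ (by positivity)
                  apply mul_le_mul_of_nonneg_left _ (by positivity)
                  exact pow_le_pow_left₀ (by positivity) hqj _
              _ = q ^ (48 * a) * (X * lam) ^ s := by rw [mul_pow]; ring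
              _ ≤ q ^ (48 * a) * (X * lam) ^ 1 := by
                  apply mul_le_mul_of_nonneg_left _ (by positivity)
                  exact pow_le_pow_of_le_one (by positivity) g3 (by omega)
              _ = _ := by ring
          nlinarith
      calc q * X ^ s * ((q ^ n) ^ k * β s) = (q ^ n) ^ k * (q * (X ^ s * β s)) := by ring
        _ ≤ _ := by
            apply mul_le_mul_of_nonneg_left _ (by positivity)
            exact mul_le_mul_of_nonneg_left hred (by positivity)
    refine (Finset.sum_le_sum hterm).trans ?_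
    rw [Finset.sum_const, nsmul_eq_mul, Nat.card_Icc, Nat.add_sub_cancel]
    have hXle : X ≤ (n + 1) ^ 2 * q := by
      rw [hX']
      nlinarith
    have hn1 : (1 : ℝ) ≤ (n : ℝ) + 1 := by linarith
    have hfin : (X ^ (48 * a) * (n + 1) + X ^ (12 * a) * n + q ^ (48 * a) * X) ≤
        3 * (q ^ (48 * a + 1) * ((n : ℝ) + 1) ^ (96 * a + 2)) := by
      have w1 : X ^ (48 * a) * (n + 1) ≤ q ^ (48 * a + 1) * ((n : ℝ) + 1) ^ (96 * a + 2) := by
        calc X ^ (48 * a) * (n + 1) ≤ ((n + 1) ^ 2 * q) ^ (48 * a) * (n + 1) := by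
              apply mul_le_mul_of_nonneg_right _ (by positivity)
              exact pow_le_pow_left₀ (by positivity) hXle _
          _ = q ^ (48 * a) * ((n : ℝ) + 1) ^ (96 * a + 1) := by
              rw [mul_pow, ← pow_mul]
              have : 2 * (48 * a) = 96 * a := by ring
              rw [this, pow_succ ((n : ℝ) + 1) (96 * a)]; ring
          _ ≤ _ := by
              apply mul_le_mul
              · exact pow_le_pow_right₀ hq1 (by omega)
              · exact pow_le_pow_right₀ hn1 (by omega)
              · positivity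
              · positivity
      have w2 : X ^ (12 * a) * n ≤ q ^ (48 * a + 1) * ((n : ℝ) + 1) ^ (96 * a + 2) := by
        calc X ^ (12 * a) * n ≤ X ^ (48 * a) * (n + 1) := by
              apply mul_le_mul
              · exact pow_le_pow_right₀ hX1 (by omega)
              · linarith
              · positivity
              · positivity
          _ ≤ _ := w1
      have w3 : q ^ (48 * a) * X ≤ q ^ (48 * a + 1) * ((n : ℝ) + 1) ^ (96 * a + 2) := by
        calc q ^ (48 * a) * X ≤ q ^ (48 * a) * ((n + 1) ^ 2 * q) :=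
              mul_le_mul_of_nonneg_left hXle (by positivity)
          _ = q ^ (48 * a + 1) * ((n : ℝ) + 1) ^ 2 := by rw [pow_succ]; ring
          _ ≤ _ := by
              apply mul_le_mul_of_nonneg_left _ (by positivity)
              exact pow_le_pow_right₀ hn1 (by omega)
      linarith
    calc (n : ℝ) * ((q ^ n) ^ k * (q * ((X ^ (48 * a) * (n + 1) + X ^ (12 * a) * n +
          q ^ (48 * a) * X) * lam)))
        ≤ ((n : ℝ) + 1) * ((q ^ n) ^ k * (q * ((3 * (q ^ (48 * a + 1) *
          ((n : ℝ) + 1) ^ (96 * a + 2))) * lam))) := by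
          apply mul_le_mul (by linarith) _ (by positivity) (by positivity)
          apply mul_le_mul_of_nonneg_left _ (by positivity)
          apply mul_le_mul_of_nonneg_left _ (by positivity)
          exact mul_le_mul_of_nonneg_right hfin (by positivity)
      _ = _ := by
          have r1 : 48 * a + 2 = 48 * a + 1 + 1 := by ring
          have r2 : 96 * a + 3 = 96 * a + 2 + 1 := by ring
          rw [r1, r2, pow_succ q (48 * a + 1), pow_succ ((n : ℝ) + 1) (96 * a + 2)]
          ring
  · intro s hs1 hsn p hp hμ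
    by_cases hs48 : s < 48 * a
    · simp only [β, hs48, if_true]
      exact stab_small hF hp hk1
    · simp only [β, hs48, if_false]
      have h12 : 12 * a * (s / (12 * a)) ≤ s := Nat.mul_div_le s (12 * a)
      have h12k : 12 * (s / (12 * a)) ≤ k := by
        have : a * (12 * (s / (12 * a))) ≤ a * k := by
          calc a * (12 * (s / (12 * a))) = 12 * a * (s / (12 * a)) := by ring
            _ ≤ s := h12
            _ ≤ n := hsn
            _ ≤ a * k := h1
        exact Nat.le_of_mul_le_mul_left this (by omega)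
      have h12s : 12 * (s / (12 * a)) ≤ s := by
        refine le_trans ?_ h12
        have : 12 * (s / (12 * a)) * 1 ≤ 12 * (s / (12 * a)) * a := Nat.mul_le_mul_left _ ha
        calc 12 * (s / (12 * a)) = 12 * (s / (12 * a)) * 1 := by ring
          _ ≤ 12 * (s / (12 * a)) * a := this
          _ = _ := by ring
      have ha48 : 48 ≤ 48 * a := by omega
      apply stab_large (r := (s + 2) / 3) hμ
      · omega
      · omega
      · omega
      · intro i hi
        have hi' : i ≤ s / (12 * a) := by omega
        have u1 : 12 * i ≤ s := by omega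
        have u2 : 12 * i ≤ k := by omega
        have u3 : 2 + 2 * i ≤ (s + 2) / 3 := by omega
        refine ⟨u3, ?_⟩
        have u4 : s ≤ 12 * ((s + 2) / 3 - (2 + 2 * i)) := by omega
        have u5 : k ≤ 2 * (k - i) := by omega
        have u6 : s * k ≤ 12 * ((s + 2) / 3 - (2 + 2 * i)) * (2 * (k - i)) :=
          Nat.mul_le_mul u4 u5
        have u7 : s * (48 * j) ≤ s * k := Nat.mul_le_mul_left _ hk48
        have u8 : 24 * (2 * s * j) ≤ 24 * (((s + 2) / 3 - (2 + 2 * i)) * (k - i)) := by
          calc 24 * (2 * s * j) = s * (48 * j) := by ring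
            _ ≤ s * k := u7
            _ ≤ _ := u6
            _ = _ := by ring
        exact Nat.le_of_mul_le_mul_left u8 (by norm_num)

end main

end Pool.Agent.LibRigid
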